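import Pool.Agent.H23.GZ.Targets5

/-!
# Row EXB of the board gz (MP_52e316_nt): combinations of exponentials
-/

set_option autoImplicit false

namespace Pool.Agent.H48.GZ

open Pool.Agent.H34.GM Pool.Agent.H34.GZ

/-- the remainder of the exponential series on the imaginary axis -/
theorem exp_rem (K : ℕ) (t : ℝ) :
    ‖Complex.exp (t * Complex.I) - ∑ k ∈ Finset.range K, ((t : ℂ) * Complex.I) ^ k /
      (k.factorial : ℂ)‖ ≤ ((K : ℝ) + 1) * |t| ^ K := by
  have hn : ‖(t : ℂ) * Complex.I‖ = |t| := by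
    rw [norm_mul, Complex.norm_I, mul_one, Complex.norm_real, Real.norm_eq_abs]
  have he : ‖Complex.exp (t * Complex.I)‖ = 1 := Complex.norm_exp_ofReal_mul_I t
  rcases Nat.eq_zero_or_pos K with h0 | hK
  · subst h0
    simp [he]
  rcases le_total |t| 1 with h1 | h1
  · have h2 := Complex.exp_bound (x := (t : ℂ) * Complex.I) (by rw [hn]; exact h1) hK
    rw [hn] at h2
    refine h2.trans ?_
    have h3 : ((K.succ : ℕ) : ℝ) * (((K.factorial : ℕ) : ℝ) * K)⁻¹ ≤ (K : ℝ) + 1 := by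
      have h4 : (1 : ℝ) ≤ ((K.factorial : ℕ) : ℝ) * K := by
        have h5 : 1 ≤ K.factorial * K := Nat.mul_pos (Nat.factorial_pos K) hK
        exact_mod_cast h5
      have h5 : (((K.factorial : ℕ) : ℝ) * K)⁻¹ ≤ 1 := inv_le_one_of_one_le₀ h4
      have h6 : ((K.succ : ℕ) : ℝ) = (K : ℝ) + 1 := by push_cast; ring
      rw [h6]
      calc ((K : ℝ) + 1) * (((K.factorial : ℕ) : ℝ) * K)⁻¹ ≤ ((K : ℝ) + 1) * 1 := by
            gcongr
        _ = (K : ℝ) + 1 := mul_one _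
    have h4 : (0 : ℝ) ≤ |t| ^ K := by positivity
    calc |t| ^ K * (((K.succ : ℕ) : ℝ) * (((K.factorial : ℕ) : ℝ) * K)⁻¹)
        ≤ |t| ^ K * ((K : ℝ) + 1) := mul_le_mul_of_nonneg_left h3 h4
      _ = ((K : ℝ) + 1) * |t| ^ K := mul_comm _ _
  · have h2 : ∀ k ∈ Finset.range K, ‖((t : ℂ) * Complex.I) ^ k / (k.factorial : ℂ)‖ ≤
        |t| ^ K := by
      intro k hk
      rw [norm_div, norm_pow, hn, Complex.norm_natCast]
      have h3 : (1 : ℝ) ≤ (k.factorial : ℝ) := by exact_mod_cast Nat.factorial_pos k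
      calc |t| ^ k / (k.factorial : ℝ) ≤ |t| ^ k := div_le_self (by positivity) h3
        _ ≤ |t| ^ K := pow_le_pow_right₀ h1 (Finset.mem_range.1 hk).le
    have h3 : ‖∑ k ∈ Finset.range K, ((t : ℂ) * Complex.I) ^ k / (k.factorial : ℂ)‖ ≤
        K * |t| ^ K := by
      refine (norm_sum_le _ _).trans ((Finset.sum_le_sum h2).trans (le_of_eq ?_))
      rw [Finset.sum_const, Finset.card_range, nsmul_eq_mul]
    have h4 : (1 : ℝ) ≤ |t| ^ K := one_le_pow₀ h1
    refine (norm_sub_le _ _).trans ?_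
    rw [he]
    linarith

theorem pf_EXB : T_PKB → T_EXB := by
  intro hP K
  obtain ⟨hP1, -, hP3⟩ := hP
  refine ⟨((K : ℝ) + 1) * (2 ^ K * (((K : ℝ) + 1) * (2 * Real.pi * 2 ^ K) ^ K)),
    by positivity, fun x => ?_⟩
  -- the arguments
  have hee : ∀ n : ℕ, ee (2 ^ n * x) =
      Complex.exp (((2 * Real.pi * 2 ^ n * x : ℝ) : ℂ) * Complex.I) := by
    intro n
    unfold ee
    congr 1
    push_cast
    ring
  -- the Taylor polynomials cancel
  have hz : ∑ n ∈ Finset.range (K + 1), (((pK K).coeff n : ℝ) : ℂ) *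
      ∑ k ∈ Finset.range K, (((2 * Real.pi * 2 ^ n * x : ℝ) : ℂ) * Complex.I) ^ k /
        (k.factorial : ℂ) = 0 := by
    have h1 : ∀ n ∈ Finset.range (K + 1), (((pK K).coeff n : ℝ) : ℂ) *
        ∑ k ∈ Finset.range K, (((2 * Real.pi * 2 ^ n * x : ℝ) : ℂ) * Complex.I) ^ k /
          (k.factorial : ℂ) =
        ∑ k ∈ Finset.range K, ((2 * Real.pi * x * Complex.I) ^ k / (k.factorial : ℂ)) *
          ((((pK K).coeff n : ℝ) : ℂ) * ((2 : ℂ) ^ k) ^ n) := by
      intro n _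
      rw [Finset.mul_sum]
      refine Finset.sum_congr rfl fun k _ => ?_
      have h2 : ((2 * Real.pi * 2 ^ n * x : ℝ) : ℂ) * Complex.I =
          (2 : ℂ) ^ n * (2 * Real.pi * x * Complex.I) := by
        push_cast
        ring
      have h3 : ((2 : ℂ) ^ k) ^ n = ((2 : ℂ) ^ n) ^ k := by
        rw [← pow_mul, ← pow_mul, mul_comm]
      rw [h2, h3, mul_pow]
      ring
    rw [Finset.sum_congr rfl h1, Finset.sum_comm]
    refine Finset.sum_eq_zero fun k hk => ?_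
    rw [← Finset.mul_sum, hP1 K ((2 : ℂ) ^ k), Finset.prod_eq_zero hk, mul_zero]
    rw [← mul_pow]
    norm_num
  have hsum : ∑ n ∈ Finset.range (K + 1), (((pK K).coeff n : ℝ) : ℂ) * ee (2 ^ n * x) =
      ∑ n ∈ Finset.range (K + 1), (((pK K).coeff n : ℝ) : ℂ) *
        (Complex.exp (((2 * Real.pi * 2 ^ n * x : ℝ) : ℂ) * Complex.I) -
          ∑ k ∈ Finset.range K, (((2 * Real.pi * 2 ^ n * x : ℝ) : ℂ) * Complex.I) ^ k /
            (k.factorial : ℂ)) := by
    simp only [mul_sub]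
    rw [Finset.sum_sub_distrib, hz, sub_zero]
    exact Finset.sum_congr rfl fun n _ => by rw [hee n]
  rw [hsum]
  have hterm : ∀ n ∈ Finset.range (K + 1), ‖(((pK K).coeff n : ℝ) : ℂ) *
        (Complex.exp (((2 * Real.pi * 2 ^ n * x : ℝ) : ℂ) * Complex.I) -
          ∑ k ∈ Finset.range K, (((2 * Real.pi * 2 ^ n * x : ℝ) : ℂ) * Complex.I) ^ k /
            (k.factorial : ℂ))‖ ≤
      2 ^ K * (((K : ℝ) + 1) * (2 * Real.pi * 2 ^ K) ^ K) * |x| ^ K := by
    intro n hn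
    have hnK : n ≤ K := by
      have := Finset.mem_range.1 hn
      omega
    rw [norm_mul, Complex.norm_real, Real.norm_eq_abs]
    have h1 := hP3 K n
    have h2 := exp_rem K (2 * Real.pi * 2 ^ n * x)
    have h3 : |2 * Real.pi * 2 ^ n * x| ≤ 2 * Real.pi * 2 ^ K * |x| := by
      rw [abs_mul, abs_of_pos (by positivity : (0 : ℝ) < 2 * Real.pi * 2 ^ n)]
      have h4 : (2 : ℝ) ^ n ≤ 2 ^ K := pow_le_pow_right₀ (by norm_num) hnK
      have h5 : (0 : ℝ) ≤ 2 * Real.pi := by positivity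
      have h6 := mul_le_mul_of_nonneg_left h4 h5
      exact mul_le_mul_of_nonneg_right h6 (abs_nonneg x)
    have h4 : |2 * Real.pi * 2 ^ n * x| ^ K ≤ (2 * Real.pi * 2 ^ K * |x|) ^ K :=
      pow_le_pow_left₀ (abs_nonneg _) h3 K
    calc |(pK K).coeff n| * _ ≤ 2 ^ K * (((K : ℝ) + 1) * |2 * Real.pi * 2 ^ n * x| ^ K) :=
          mul_le_mul h1 h2 (norm_nonneg _) (by positivity)
      _ ≤ 2 ^ K * (((K : ℝ) + 1) * (2 * Real.pi * 2 ^ K * |x|) ^ K) := by gcongr
      _ = _ := by rw [mul_pow]; ring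
  refine (norm_sum_le _ _).trans ((Finset.sum_le_sum hterm).trans (le_of_eq ?_))
  rw [Finset.sum_const, Finset.card_range, nsmul_eq_mul]
  push_cast
  ring

end Pool.Agent.H48.GZ
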